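import Mathlib

/-!
# Eigenvalues of elements of Heisenberg type
-/

set_option autoImplicit false

namespace Pool.Agent.H673R4.LR

open Module Polynomial

section eig

variable {E V : Type*} [Field E] [AddCommGroup V] [Module E V]

/-- If `X` commutes with `Y` and `H` and `H Y = X Y H`, then the eigenvalues of `X` are roots of unity
of order at most the dimension. -/
lemma eig_pow [IsAlgClosed E] [FiniteDimensional E V] (X Y H : (Module.End E V)ˣ)
    (h1 : X * Y = Y * X) (h2 : X * H = H * X) (h3 : H * Y = X * Y * H) {χ : E}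
    (hχ : (X : Module.End E V).HasEigenvalue χ) :
    χ ^ (finrank E V).factorial = 1 := by
  classical
  have e1 : ∀ v, (X : Module.End E V) ((Y : Module.End E V) v) =
      (Y : Module.End E V) ((X : Module.End E V) v) := fun v => by
    have := congrArg (fun g : (Module.End E V)ˣ => (g : Module.End E V) v) h1
    simpa using this
  have h2' : X * H⁻¹ = H⁻¹ * X := by
    rw [eq_inv_mul_iff_mul_eq, ← mul_assoc, ← h2, mul_assoc, mul_inv_cancel, mul_one]
  have e2 : ∀ v, (X : Module.End E V) ((H⁻¹ : (Module.End E V)ˣ).1 v) =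
      (H⁻¹ : (Module.End E V)ˣ).1 ((X : Module.End E V) v) := fun v => by
    have := congrArg (fun g : (Module.End E V)ˣ => (g : Module.End E V) v) h2'
    simpa using this
  have h3' : Y * H⁻¹ = H⁻¹ * (X * Y) := by
    rw [eq_inv_mul_iff_mul_eq, ← mul_assoc, h3, mul_assoc, mul_inv_cancel, mul_one]
  have e3 : ∀ v, (Y : Module.End E V) ((H⁻¹ : (Module.End E V)ˣ).1 v) =
      (H⁻¹ : (Module.End E V)ˣ).1 ((X : Module.End E V) ((Y : Module.End E V) v)) := fun v => by
    have := congrArg (fun g : (Module.End E V)ˣ => (g : Module.End E V) v) h3'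
    simpa using this
  have inj : ∀ (g : (Module.End E V)ˣ) (v : V), (g : Module.End E V) v = 0 → v = 0 := by
    intro g v hv
    have : ((g⁻¹ : (Module.End E V)ˣ) : Module.End E V) ((g : Module.End E V) v) = v := by
      have := LinearMap.congr_fun (Units.inv_mul g) v
      rwa [Module.End.mul_apply, Module.End.one_apply] at this
    rw [← this, hv, map_zero]
  -- a common eigenvector
  let W : Submodule E V := (X : Module.End E V).eigenspace χ
  have hWn : Nontrivial W := by
    rw [Submodule.nontrivial_iff_ne_bot]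
    exact hχ
  have hYW : ∀ w ∈ W, (Y : Module.End E V) w ∈ W := by
    intro w hw
    rw [Module.End.mem_eigenspace_iff] at hw ⊢
    rw [e1, hw, map_smul]
  obtain ⟨ψ, hψ⟩ := Module.End.exists_eigenvalue ((Y : Module.End E V).restrict hYW)
  obtain ⟨w, hw⟩ := hψ.exists_hasEigenvector
  have hw0 : (w : V) ≠ 0 := fun h => hw.2 (by ext; exact h)
  have hYw : (Y : Module.End E V) (w : V) = ψ • (w : V) := by
    have := congrArg Subtype.val hw.apply_eq_smul
    simpa [LinearMap.restrict_apply] using this
  have hXw : (X : Module.End E V) (w : V) = χ • (w : V) :=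
    Module.End.mem_eigenspace_iff.1 w.2
  have hψ0 : ψ ≠ 0 := by
    rintro rfl
    rw [zero_smul] at hYw
    exact hw0 (inj _ _ hYw)
  have hχ0 : χ ≠ 0 := by
    rintro rfl
    rw [zero_smul] at hXw
    exact hw0 (inj _ _ hXw)
  let vs : ℕ → V := fun j => ((H⁻¹ : (Module.End E V)ˣ).1 ^ j) (w : V)
  have hvs : ∀ j, vs (j + 1) = (H⁻¹ : (Module.End E V)ˣ).1 (vs j) := by
    intro j
    show ((H⁻¹ : (Module.End E V)ˣ).1 ^ (j + 1)) (w : V) = _
    rw [pow_succ']
    rfl
  have key : ∀ j, (X : Module.End E V) (vs j) = χ • vs j ∧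
      (Y : Module.End E V) (vs j) = (ψ * χ ^ j) • vs j ∧ vs j ≠ 0 := by
    intro j
    induction j with
    | zero =>
      refine ⟨?_, ?_, ?_⟩
      · simpa [vs] using hXw
      · simpa [vs] using hYw
      · simpa [vs] using hw0
    | succ j ih =>
      obtain ⟨i1, i2, i3⟩ := ih
      refine ⟨?_, ?_, ?_⟩
      · rw [hvs, e2, i1, map_smul]
      · rw [hvs, e3, i2, map_smul, i1, map_smul, map_smul, smul_smul, pow_succ, mul_assoc]
      · rw [hvs]
        exact fun h => i3 (inj _ _ h)
  -- two powers of `χ` coincide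
  obtain ⟨i, j, hij, hjN, hp⟩ : ∃ i j : ℕ, i < j ∧ j ≤ finrank E V ∧ χ ^ i = χ ^ j := by
    by_contra hcon
    push Not at hcon
    have hinj : Function.Injective (fun j : Fin (finrank E V + 1) => ψ * χ ^ (j : ℕ)) := by
      intro a b hab
      have hab' : χ ^ (a : ℕ) = χ ^ (b : ℕ) := mul_left_cancel₀ hψ0 hab
      rcases lt_trichotomy (a : ℕ) (b : ℕ) with h | h | h
      · exact absurd hab' (hcon _ _ h (by omega))
      · exact Fin.ext h
      · exact absurd hab'.symm (hcon _ _ h (by omega))
    have hli := Module.End.eigenvectors_linearIndependent' (Y : Module.End E V)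
      (fun j : Fin (finrank E V + 1) => ψ * χ ^ (j : ℕ)) hinj (fun j => vs j)
      (fun j => ⟨Module.End.mem_eigenspace_iff.2 (key j).2.1, (key j).2.2⟩)
    have := hli.fintype_card_le_finrank
    rw [Fintype.card_fin] at this
    omega
  have hd : χ ^ (j - i) = 1 := by
    have : χ ^ i * χ ^ (j - i) = χ ^ i * 1 := by
      rw [← pow_add, Nat.add_sub_cancel' hij.le, mul_one, hp]
    exact mul_left_cancel₀ (pow_ne_zero _ hχ0) this
  obtain ⟨c, hc⟩ := Nat.dvd_factorial (show 0 < j - i by omega) (show j - i ≤ finrank E V by omega)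
  rw [hc, pow_mul, hd, one_pow]

lemma multiset_prod_dvd {R : Type*} [CommRing R] (b : R) (s : Multiset R) (h : ∀ a ∈ s, a ∣ b) :
    s.prod ∣ b ^ s.card := by
  induction s using Multiset.induction_on with
  | empty => simp
  | cons a s ih =>
    rw [Multiset.prod_cons, Multiset.card_cons, pow_succ']
    exact mul_dvd_mul (h a (Multiset.mem_cons_self _ _))
      (ih fun x hx => h x (Multiset.mem_cons_of_mem hx))

/-- If all eigenvalues satisfy `χ ^ c = 1` then `X ^ c - 1` is nilpotent. -/
lemma pow_sub_one_nil [IsAlgClosed E] [FiniteDimensional E V] (X : Module.End E V) (c : ℕ)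
    (h : ∀ χ : E, X.HasEigenvalue χ → χ ^ c = 1) : (X ^ c - 1) ^ (finrank E V) = 0 := by
  classical
  have hs := IsAlgClosed.splits (LinearMap.charpoly X)
  have hm := LinearMap.charpoly_monic X
  have hprod := hs.eq_prod_roots_of_monic hm
  have hdvd : LinearMap.charpoly X ∣ ((Polynomial.X : E[X]) ^ c - 1) ^ (finrank E V) := by
    have hcard : (LinearMap.charpoly X).roots.card = finrank E V := by
      rw [← hs.natDegree_eq_card_roots, LinearMap.charpoly_natDegree]
    have := multiset_prod_dvd ((Polynomial.X : E[X]) ^ c - 1)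
      ((LinearMap.charpoly X).roots.map fun a => Polynomial.X - C a) (by
        intro a ha
        obtain ⟨χ, hχ, rfl⟩ := Multiset.mem_map.1 ha
        rw [Polynomial.dvd_iff_isRoot]
        have : X.HasEigenvalue χ := by
          rw [Module.End.hasEigenvalue_iff_isRoot_charpoly]
          exact Polynomial.isRoot_of_mem_roots hχ
        simp [Polynomial.IsRoot, h χ this])
    rw [Multiset.card_map, hcard] at this
    rw [hprod]
    exact this
  obtain ⟨q, hq⟩ := hdvd
  have h2 : aeval X (((Polynomial.X : E[X]) ^ c - 1) ^ (finrank E V)) = 0 := by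
    rw [hq, map_mul, LinearMap.aeval_self_charpoly, zero_mul]
  simpa using h2

/-- In characteristic `p` the element `X` has finite order. -/
lemma pow_eq_one [IsAlgClosed E] [FiniteDimensional E V] {p : ℕ} [Fact p.Prime] [CharP E p]
    (X Y H : (Module.End E V)ˣ)
    (h1 : X * Y = Y * X) (h2 : X * H = H * X) (h3 : H * Y = X * Y * H) :
    X ^ ((finrank E V).factorial * p ^ (finrank E V)) = 1 := by
  have hn := pow_sub_one_nil (X : Module.End E V) (finrank E V).factorial
    (fun χ hχ => eig_pow X Y H h1 h2 h3 hχ)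
  rcases subsingleton_or_nontrivial V with hV | hV
  · exact Units.ext (by ext v; exact Subsingleton.elim _ _)
  · have hp : CharP (Module.End E V) p := by
      exact charP_of_injective_algebraMap (algebraMap E (Module.End E V)).injective p
    have hle : finrank E V ≤ p ^ (finrank E V) :=
      (Nat.lt_pow_self (Fact.out : p.Prime).one_lt).le
    have h0 : ((X : Module.End E V) ^ (finrank E V).factorial - 1) ^ (p ^ (finrank E V)) = 0 :=
      pow_eq_zero_of_le hle hn
    rw [sub_pow_char_pow_of_commute _ _ (Commute.one_right _), one_pow, ← pow_mul,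
      sub_eq_zero] at h0
    exact Units.ext (by rw [Units.val_pow_eq_pow_val, h0, Units.val_one])

end eig

end Pool.Agent.H673R4.LR
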