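import Pool.Agent.Helper460_CSP.Bls
import Pool.Agent.H673R4.LR.A

/-!
# Linear representations of `SL (m, ℤ)` over fields of positive characteristic
-/

set_option autoImplicit false

namespace Pool.Agent.H673R4.LR

open Matrix Module Pool.Agent.Helper460_CSP

/-- `SL (m, ℤ)` -/
abbrev SZ (m : ℕ) := SpecialLinearGroup (Fin m) ℤ

section rel

variable {m : ℕ} {i j k : Fin m}

lemma tv_st (hij : i ≠ j) (hik : i ≠ k) (hkj : k ≠ j) (a b : ℤ) :
    tv i k hik a * tv k j hkj b = tv i j hij (a * b) * tv k j hkj b * tv i k hik a := by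
  apply mt_inj
  simp only [mt_mul]
  show transvection i k a * transvection k j b =
    transvection i j (a * b) * transvection k j b * transvection i k a
  simp only [transvection, mul_add, add_mul, mul_one, one_mul, single_mul_single_same,
    single_mul_single_of_ne _ _ _ _ hij.symm, single_mul_single_of_ne _ _ _ _ hkj.symm, add_zero]
  abel

lemma tv_c1 (hij : i ≠ j) (hkj : k ≠ j) (a b : ℤ) :
    tv i j hij a * tv k j hkj b = tv k j hkj b * tv i j hij a := by
  apply mt_inj
  simp only [mt_mul]
  show transvection i j a * transvection k j b = transvection k j b * transvection i j a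
  simp only [transvection, mul_add, add_mul, mul_one, one_mul,
    single_mul_single_of_ne _ _ _ _ hij.symm, single_mul_single_of_ne _ _ _ _ hkj.symm, add_zero]
  abel

lemma tv_c2 (hij : i ≠ j) (hik : i ≠ k) (a b : ℤ) :
    tv i j hij a * tv i k hik b = tv i k hik b * tv i j hij a := by
  apply mt_inj
  simp only [mt_mul]
  show transvection i j a * transvection i k b = transvection i k b * transvection i j a
  simp only [transvection, mul_add, add_mul, mul_one, one_mul,
    single_mul_single_of_ne _ _ _ _ hij.symm, single_mul_single_of_ne _ _ _ _ hik.symm, add_zero]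
  abel

end rel

lemma exists_third {m : ℕ} (hm : 3 ≤ m) (i j : Fin m) : ∃ k : Fin m, k ≠ i ∧ k ≠ j := by
  have : ({i, j} : Finset (Fin m)).card < (Finset.univ : Finset (Fin m)).card := by
    rw [Finset.card_univ, Fintype.card_fin]
    exact lt_of_le_of_lt Finset.card_le_two (by omega)
  obtain ⟨k, _, hk⟩ := Finset.exists_mem_notMem_of_card_lt_card this
  simp only [Finset.mem_insert, Finset.mem_singleton, not_or] at hk
  exact ⟨k, hk.1, hk.2⟩

/-- the units of a matrix ring over a field inside the units of the endomorphism ring over the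
algebraic closure -/
noncomputable def toEnd (N : ℕ) (F : Type*) [Field F] :
    GL (Fin N) F →* (Module.End (AlgebraicClosure F) (Fin N → AlgebraicClosure F))ˣ :=
  (Units.map (Matrix.toLinAlgEquiv' (R := AlgebraicClosure F) (n := Fin N)).toMonoidHom).comp
    (Matrix.GeneralLinearGroup.map (algebraMap F (AlgebraicClosure F)))

lemma toEnd_inj (N : ℕ) (F : Type*) [Field F] : Function.Injective (toEnd N F) := by
  intro a b h
  have h1 : Matrix.toLinAlgEquiv' (R := AlgebraicClosure F) (n := Fin N)
      ((Matrix.GeneralLinearGroup.map (algebraMap F (AlgebraicClosure F)) a).1) =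
      Matrix.toLinAlgEquiv' (R := AlgebraicClosure F) (n := Fin N)
      ((Matrix.GeneralLinearGroup.map (algebraMap F (AlgebraicClosure F)) b).1) :=
    congrArg Units.val h
  have h2 := (Matrix.toLinAlgEquiv' (R := AlgebraicClosure F) (n := Fin N)).injective h1
  apply Units.ext
  ext i j
  have h3 := congrFun (congrFun h2 i) j
  exact (algebraMap F (AlgebraicClosure F)).injective h3

/-- The order of the elementary matrices. -/
theorem tv_pow_one {m N p : ℕ} (hm : 3 ≤ m) [Fact p.Prime] {F : Type*} [Field F] [CharP F p]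
    (φ : SZ m →* GL (Fin N) F) (i j : Fin m) (h : i ≠ j) :
    φ (tv i j h ((N.factorial * p ^ N : ℕ) : ℤ)) = 1 := by
  obtain ⟨k, hki, hkj⟩ := exists_third hm i j
  apply toEnd_inj
  rw [map_one, show (((N.factorial * p ^ N : ℕ)) : ℤ) = 1 * ((N.factorial * p ^ N : ℕ) : ℤ) by ring,
    tv_mul_zpow, zpow_natCast, map_pow, map_pow]
  have : CharP (AlgebraicClosure F) p :=
    charP_of_injective_algebraMap (algebraMap F (AlgebraicClosure F)).injective p
  have key := pow_eq_one (p := p) (toEnd N F (φ (tv i j h 1))) (toEnd N F (φ (tv k j hkj 1)))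
    (toEnd N F (φ (tv i k hki.symm 1)))
    (by rw [← map_mul, ← map_mul, ← map_mul, ← map_mul, tv_c1])
    (by rw [← map_mul, ← map_mul, ← map_mul, ← map_mul, tv_c2])
    (by
      rw [← map_mul, ← map_mul, ← map_mul, ← map_mul, ← map_mul, ← map_mul,
        tv_st h hki.symm hkj 1 1, one_mul])
  rwa [Module.finrank_fin_fun] at key

lemma El_le_ker {m N p : ℕ} (hm : 3 ≤ m) [Fact p.Prime] {F : Type*} [Field F] [CharP F p]
    (φ : SZ m →* GL (Fin N) F) :
    El (Fin m) ((N.factorial * p ^ N : ℕ) : ℤ) ≤ φ.ker :=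
  El_le fun i j h => MonoidHom.mem_ker.2 (tv_pow_one hm φ i j h)

lemma bls' {m : ℕ} (hm : 3 ≤ m) {M : ℤ} (hM : M ≠ 0) (A : SZ m) (h : Cgr M A) :
    A ∈ El (Fin m) M := by
  obtain ⟨k, rfl⟩ : ∃ k, m = k + 3 := ⟨m - 3, by omega⟩
  exact bls hM k A h

/-- The bound for the image. -/
theorem card_range {m : ℕ} (hm : 3 ≤ m) {G : Type*} [Group G] (φ : SZ m →* G) {M : ℕ} (hM : 0 < M)
    (h : El (Fin m) (M : ℤ) ≤ φ.ker) :
    Finite φ.range ∧ Nat.card φ.range ≤ M ^ (m ^ 2) := by
  classical
  have : NeZero M := ⟨hM.ne'⟩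
  choose f hf using fun y : φ.range => y.2
  let g : φ.range → Matrix (Fin m) (Fin m) (ZMod M) := fun y =>
    (mt (f y)).map (Int.castRingHom (ZMod M))
  have hg : Function.Injective g := by
    intro x y hxy
    have hc : Cgr (M : ℤ) (f x * (f y)⁻¹) := by
      rw [cgr_iff, MonoidHom.mem_ker, map_mul, map_inv, mul_inv_eq_one]
      apply Subtype.ext
      ext a b
      have h1 := congrFun (congrFun hxy a) b
      exact h1
    have h2 := h (bls' hm (by exact_mod_cast hM.ne') _ hc)
    rw [MonoidHom.mem_ker, map_mul, map_inv, mul_inv_eq_one, hf, hf] at h2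
    exact Subtype.ext h2
  have hfin : Finite φ.range := Finite.of_injective g hg
  refine ⟨hfin, (Nat.card_le_card_of_injective g hg).trans (le_of_eq ?_)⟩
  show Nat.card (Fin m → Fin m → ZMod M) = _
  simp [Nat.card_pi, Nat.card_zmod, ← pow_mul, sq]

end Pool.Agent.H673R4.LR
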