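import Pool.Agent.H673R4.LR.B

/-!
# Linear images of groups whose finite quotients are quotients of `SL (m, ℤ)`
-/

set_option autoImplicit false
set_option linter.style.haveILetI false

namespace Pool.Agent.H673R4.LR

open Matrix Module

/-- Every finite quotient of `Λ` is a quotient of `SL (m, ℤ)`. -/
def QuotientsOf (m : ℕ) (Λ : Type) [Group Λ] : Prop :=
  ∀ (Q : Type) [Group Q] [Finite Q], (∃ f : Λ →* Q, Function.Surjective f) →
    ∃ f : SZ m →* Q, Function.Surjective f

/-- a field which is finitely generated as an abelian group is finite of prime characteristic -/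
theorem finite_field_of_fg (F : Type*) [Field F] [Module.Finite ℤ F] :
    ∃ q : ℕ, q.Prime ∧ CharP F q ∧ Finite F := by
  obtain ⟨q, hq⟩ := CharP.exists F
  rcases CharP.char_is_prime_or_zero F q with hp | hp
  · haveI : Fact q.Prime := ⟨hp⟩
    let _ : Algebra (ZMod q) F := ZMod.algebra F q
    haveI : Module.Finite (ZMod q) F := Module.Finite.of_restrictScalars_finite ℤ (ZMod q) F
    exact ⟨q, hp, hq, Module.finite_of_finite (ZMod q)⟩
  · subst hp
    exfalso
    haveI : CharZero F := CharP.charP_to_charZero F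
    haveI : Algebra.IsIntegral ℤ F := Algebra.IsIntegral.of_finite ℤ F
    have h1 : IsIntegral ℤ (algebraMap ℚ F (2 : ℚ)⁻¹) := Algebra.IsIntegral.isIntegral _
    have h2 : IsIntegral ℤ ((2 : ℚ)⁻¹) :=
      (isIntegral_algebraMap_iff (algebraMap ℚ F).injective).1 h1
    obtain ⟨z, hz⟩ := IsIntegrallyClosed.isIntegral_iff.1 h2
    have hz' : (z : ℚ) = (2 : ℚ)⁻¹ := by simpa using hz
    have h3 : (2 * z : ℤ) = 1 := by
      have : ((2 * z : ℤ) : ℚ) = 1 := by
        push_cast
        rw [hz']; norm_num
      exact_mod_cast this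
    omega

theorem jacobson_int : IsJacobsonRing ℤ := by
  rw [isJacobsonRing_iff_prime_eq]
  intro P hP
  by_cases h : P = ⊥
  · subst h
    rw [eq_bot_iff]
    intro x hx
    rw [Ideal.mem_jacobson_bot] at hx
    have h1 := hx x
    rw [Int.isUnit_iff] at h1
    rw [Ideal.mem_bot]
    rcases h1 with h1 | h1
    · have : x * x = 0 := by linarith
      exact mul_self_eq_zero.1 this
    · nlinarith [mul_self_nonneg x]
  · haveI : P.IsMaximal := hP.isMaximal h
    exact Ideal.jacobson_eq_self_of_isMaximal

/-- A nonzero element of a finitely generated domain has a nonzero image in a finite field. -/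
theorem exists_field (R : Type) [CommRing R] [IsDomain R] [Algebra.FiniteType ℤ R] (a : R)
    (ha : a ≠ 0) : ∃ (F : Type) (_ : Field F) (_ : Finite F) (θ : R →+* F), θ a ≠ 0 := by
  haveI := jacobson_int
  haveI : IsJacobsonRing R := isJacobsonRing_of_finiteType (A := ℤ)
  have h1 : (⊥ : Ideal R).jacobson = ⊥ := by
    rw [← Ideal.radical_eq_jacobson, (Ideal.isPrime_bot (α := R)).radical]
  have h2 : a ∉ (⊥ : Ideal R).jacobson := by rwa [h1, Ideal.mem_bot]
  obtain ⟨M, hMm, haM⟩ : ∃ M : Ideal R, M.IsMaximal ∧ a ∉ M := by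
    by_contra hcon
    push Not at hcon
    apply h2
    rw [Ideal.jacobson, Ideal.mem_sInf]
    rintro J ⟨_, hJ⟩
    exact hcon J hJ
  let i1 : Field (R ⧸ M) := Ideal.Quotient.field M
  have h3 : Module.Finite ℤ (R ⧸ M) :=
    @finite_of_finite_type_of_isJacobsonRing ℤ (R ⧸ M) _ i1 (Ideal.Quotient.algebra ℤ (I := M)) _
      (inferInstance)
  obtain ⟨q, hq, hc, hf⟩ := finite_field_of_fg (R ⧸ M)
  exact ⟨R ⧸ M, i1, hf, Ideal.Quotient.mk M, fun h => haM (Ideal.Quotient.eq_zero_iff_mem.1 h)⟩

section

variable {Λ : Type} [Group Λ] {K : Type} [Field K] {N : ℕ}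

/-- the entries of a finitely generated linear group lie in a finitely generated ring -/
lemma entries_mem (φ : Λ →* GL (Fin N) K) (T : Set Λ) (hT : Subgroup.closure T = ⊤)
    (R : Subalgebra ℤ K)
    (h1 : ∀ t ∈ T, ∀ i j, (φ t).val i j ∈ R) (h2 : ∀ t ∈ T, ∀ i j, (φ t⁻¹).val i j ∈ R)
    (h : Λ) : ∀ i j, (φ h).val i j ∈ R := by
  have hmem : h ∈ Subgroup.closure T := by rw [hT]; trivial
  have hmul : ∀ x y : Λ, (∀ i j, (φ x).val i j ∈ R) → (∀ i j, (φ y).val i j ∈ R) →
      ∀ i j, (φ (x * y)).val i j ∈ R := by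
    intro x y hx hy i j
    rw [map_mul, Units.val_mul, Matrix.mul_apply]
    exact R.sum_mem (fun k _ => R.mul_mem (hx i k) (hy k j))
  induction hmem using Subgroup.closure_induction_left with
  | one =>
    intro i j
    rw [map_one, Units.val_one, Matrix.one_apply]
    split_ifs
    · exact R.one_mem
    · exact R.zero_mem
  | mul_left x hx y _ ih => exact hmul x y (h1 x hx) ih
  | inv_mul_cancel x hx y _ ih => exact hmul x⁻¹ y (h2 x hx) ih

theorem exists_ring [Group.FG Λ] (φ : Λ →* GL (Fin N) K) :
    ∃ (R : Subalgebra ℤ K) (ψ : Λ →* GL (Fin N) R), Algebra.FiniteType ℤ R ∧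
      ∀ g i j, ((ψ g).val i j : K) = (φ g).val i j := by
  classical
  obtain ⟨T, hT⟩ := Group.fg_def.1 (inferInstance : Group.FG Λ)
  let s : Finset K := T.biUnion fun t => Finset.univ.biUnion fun i : Fin N =>
    Finset.univ.biUnion fun j : Fin N => {(φ t).val i j, (φ t⁻¹).val i j}
  let R : Subalgebra ℤ K := Algebra.adjoin ℤ (s : Set K)
  have hR : Algebra.FiniteType ℤ R := by
    rw [← Subalgebra.fg_iff_finiteType]
    exact ⟨s, rfl⟩
  have hent : ∀ h : Λ, ∀ i j, (φ h).val i j ∈ R := by
    apply entries_mem φ (T : Set Λ) hT R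
    · intro t ht i j
      apply Algebra.subset_adjoin
      simp only [s, Finset.coe_biUnion, Set.mem_iUnion]
      exact ⟨t, ht, i, by simp, j, by simp, by simp⟩
    · intro t ht i j
      apply Algebra.subset_adjoin
      simp only [s, Finset.coe_biUnion, Set.mem_iUnion]
      exact ⟨t, ht, i, by simp, j, by simp, by simp⟩
  let ψ0 : Λ →* Matrix (Fin N) (Fin N) R :=
    { toFun := fun h => Matrix.of fun i j => ⟨(φ h).val i j, hent h i j⟩
      map_one' := by
        ext i j
        simp only [Matrix.of_apply, map_one, Units.val_one, Matrix.one_apply]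
        split_ifs <;> rfl
      map_mul' := by
        intro x y
        ext i j
        simp only [Matrix.of_apply, map_mul, Units.val_mul, Matrix.mul_apply]
        rw [AddSubmonoidClass.coe_finsetSum]
        rfl }
  exact ⟨R, ψ0.toHomUnits, hR, fun g i j => rfl⟩

/-- A bound for the images over finite fields gives the same bound over `K`. -/
theorem card_le_of_fields (φ : Λ →* GL (Fin N) K) (R : Subalgebra ℤ K) (ψ : Λ →* GL (Fin N) R)
    (hR : Algebra.FiniteType ℤ R) (hψ : ∀ g i j, ((ψ g).val i j : K) = (φ g).val i j) (B : ℕ)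
    (hB : ∀ (F : Type) [Field F] [Finite F] (θ : R →+* F),
      Nat.card ((Matrix.GeneralLinearGroup.map θ).comp ψ).range ≤ B) :
    Finite φ.range ∧ Nat.card φ.range ≤ B := by
  classical
  -- a family of more than `B` elements
  have hno : ¬ ∃ f : Fin (B + 1) → φ.range, Function.Injective f := by
    rintro ⟨f, hf⟩
    choose g hg using fun a => (f a).2
    have hne : ∀ a b : Fin (B + 1), ∃ c : R, c ≠ 0 ∧ (a ≠ b → ∃ i j,
        c = (ψ (g a)).val i j - (ψ (g b)).val i j) := by
      intro a b
      by_cases hab : a = b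
      · exact ⟨1, one_ne_zero, fun h => absurd hab h⟩
      · have : ∃ i j, (ψ (g a)).val i j ≠ (ψ (g b)).val i j := by
          by_contra hcon
          push Not at hcon
          apply hab
          apply hf
          apply Subtype.ext
          rw [← hg a, ← hg b]
          apply Units.ext
          ext i j
          rw [← hψ, ← hψ, hcon]
        obtain ⟨i, j, hij⟩ := this
        exact ⟨_, sub_ne_zero.2 hij, fun _ => ⟨i, j, rfl⟩⟩
    choose c hc0 hc using hne
    let d : R := ∏ a : Fin (B + 1), ∏ b : Fin (B + 1), c a b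
    have hd : d ≠ 0 :=
      Finset.prod_ne_zero_iff.2 fun a _ => Finset.prod_ne_zero_iff.2 fun b _ => hc0 a b
    obtain ⟨F, iF, iFin, θ, hθ⟩ := exists_field R d hd
    have hBF := hB F θ
    have hθ' : ∀ a b : Fin (B + 1), θ (c a b) ≠ 0 := by
      intro a b h
      apply hθ
      rw [map_prod]
      refine Finset.prod_eq_zero (Finset.mem_univ a) ?_
      rw [map_prod]
      exact Finset.prod_eq_zero (Finset.mem_univ b) h
    let f' : Fin (B + 1) → ((Matrix.GeneralLinearGroup.map θ).comp ψ).range := fun a =>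
      ⟨_, ⟨g a, rfl⟩⟩
    have hf' : Function.Injective f' := by
      intro a b h
      by_contra hab
      apply hθ' a b
      obtain ⟨i, j, hij⟩ := hc a b hab
      have h1 : Matrix.GeneralLinearGroup.map θ (ψ (g a)) =
          Matrix.GeneralLinearGroup.map θ (ψ (g b)) := congrArg Subtype.val h
      have h2 : θ ((ψ (g a)).val i j) = θ ((ψ (g b)).val i j) :=
        congrArg (fun u : GL (Fin N) F => u.val i j) h1
      rw [hij, map_sub, h2, sub_self]
    have hfin : Finite (GL (Fin N) F) := inferInstance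
    have h3 := Nat.card_le_card_of_injective f' hf'
    rw [Nat.card_eq_fintype_card, Fintype.card_fin] at h3
    omega
  have hfin : Finite φ.range := by
    by_contra hinf
    rw [not_finite_iff_infinite] at hinf
    exact hno ⟨fun a => Infinite.natEmbedding φ.range a, fun a b h =>
      Fin.ext ((Infinite.natEmbedding φ.range).injective h)⟩
  refine ⟨hfin, ?_⟩
  by_contra hlt
  push Not at hlt
  apply hno
  let e := (Finite.equivFin φ.range).symm
  exact ⟨fun a => e (Fin.castLE hlt a), fun a b h =>
    Fin.castLE_injective hlt (e.injective h)⟩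

/-- The images over a finite field `F` of characteristic `p`. -/
theorem card_finite_field {m p : ℕ} (hm : 3 ≤ m) (hq : QuotientsOf m Λ) [Fact p.Prime]
    {F : Type} [Field F] [Finite F] [CharP F p] (χ : Λ →* GL (Fin N) F) :
    Nat.card χ.range ≤ (N.factorial * p ^ N) ^ (m ^ 2) := by
  have hfin : Finite (GL (Fin N) F) := inferInstance
  obtain ⟨f, hf⟩ := hq χ.range ⟨χ.rangeRestrict, χ.rangeRestrict_surjective⟩
  have h1 := card_range hm (χ.range.subtype.comp f)
    (M := N.factorial * p ^ N)
    (Nat.mul_pos (Nat.factorial_pos _) (pow_pos (Fact.out : p.Prime).pos _))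
    (El_le_ker hm _)
  have h2 : (χ.range.subtype.comp f).range = χ.range := by
    rw [MonoidHom.range_comp, MonoidHom.range_eq_top.2 hf, ← MonoidHom.range_eq_map,
      Subgroup.range_subtype]
  rw [h2] at h1
  exact h1.2

/-- **Representations in characteristic `p` have finite images.** -/
theorem char_p {m p : ℕ} (hm : 3 ≤ m) [Group.FG Λ] (hq : QuotientsOf m Λ) [Fact p.Prime] [CharP K p]
    (φ : Λ →* GL (Fin N) K) :
    Finite φ.range ∧ Nat.card φ.range ≤ (N.factorial * p ^ N) ^ (m ^ 2) := by
  obtain ⟨R, ψ, hR, hψ⟩ := exists_ring φ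
  refine card_le_of_fields φ R ψ hR hψ _ ?_
  intro F _ _ θ
  have hcR : (p : R) = 0 := Subtype.ext (by simp)
  have hcF : CharP F p := by
    have h0 : (p : F) = 0 := by
      rw [← map_natCast θ, hcR, map_zero]
    obtain ⟨q, hq'⟩ := CharP.exists F
    have hqd : q ∣ p := (CharP.cast_eq_zero_iff F q p).1 h0
    rcases (Nat.dvd_prime (Fact.out : p.Prime)).1 hqd with h | h
    · subst h
      exact absurd rfl (CharP.char_ne_one F 1)
    · rwa [h] at hq'
  exact card_finite_field hm hq _

end

end Pool.Agent.H673R4.LR
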