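import Mathlib

/-!
# Representations of `p`-groups in characteristic `p`
-/

set_option autoImplicit false
set_option linter.style.haveILetI false

namespace Pool.Agent.H673R4.LR

open Module

/-- A nonzero representation of a `p`-group over a finite field of characteristic `p` has a nonzero
invariant vector. -/
theorem exists_invariant {p : ℕ} [Fact p.Prime] {G : Type*} [Group G] (hG : IsPGroup p G)
    {F : Type*} [Field F] [Finite F] [CharP F p] {V : Type*} [AddCommGroup V] [Module F V]
    [FiniteDimensional F V] [Nontrivial V] (ρ : Representation F G V) :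
    ∃ v : V, v ≠ 0 ∧ ∀ g, ρ g v = v := by
  classical
  letI : MulAction G V :=
    { smul := fun g v => ρ g v
      one_smul := fun v => by
        show ρ 1 v = v
        rw [map_one]; rfl
      mul_smul := fun g h v => by
        show ρ (g * h) v = ρ g (ρ h v)
        rw [map_mul]; rfl }
  have hfin : Finite V := Module.finite_of_finite F
  have hcard : p ∣ Nat.card V := by
    have h1 : p ∣ Nat.card F := by
      have hF := Fintype.ofFinite F
      obtain ⟨n, _, hn⟩ := FiniteField.card (K := F) p
      rw [Nat.card_eq_fintype_card, hn]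
      exact dvd_pow_self p n.pos.ne'
    rw [Module.natCard_eq_pow_finrank (K := F) (V := V)]
    exact dvd_pow h1 (Module.finrank_pos (R := F) (M := V)).ne'
  have h0 : (0 : V) ∈ MulAction.fixedPoints G V := by
    intro g
    exact map_zero (ρ g)
  obtain ⟨b, hb, hb0⟩ := hG.exists_fixed_point_of_prime_dvd_card_of_fixed_point V hcard h0
  exact ⟨b, hb0.symm, fun g => hb g⟩

/-- A chain of subspaces on whose quotients the group acts trivially. -/
theorem exists_chain {p : ℕ} [Fact p.Prime] {G : Type*} [Group G] (hG : IsPGroup p G)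
    {F : Type*} [Field F] [Finite F] [CharP F p] : ∀ (d : ℕ) {V : Type*} [AddCommGroup V] [Module F V]
    [FiniteDimensional F V] (ρ : Representation F G V), finrank F V ≤ d →
    ∃ W : ℕ → Submodule F V, W 0 = ⊥ ∧ (∀ n g v, v ∈ W n → ρ g v ∈ W n) ∧
      (∀ n g v, v ∈ W n → ρ g v - v ∈ W (n - 1)) ∧ W d = ⊤ := by
  intro d
  induction d with
  | zero =>
    intro V _ _ _ ρ hd
    have hV : Subsingleton V := by
      rw [← Module.finrank_zero_iff (R := F)]
      omega
    refine ⟨fun _ => ⊥, rfl, ?_, ?_, Subsingleton.elim _ _⟩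
    · intro n g v _
      rw [Subsingleton.elim (ρ g v) 0]
      exact Submodule.zero_mem _
    · intro n g v _
      rw [Subsingleton.elim (ρ g v - v) 0]
      exact Submodule.zero_mem _
  | succ d ih =>
    intro V _ _ _ ρ hd
    rcases subsingleton_or_nontrivial V with hV | hV
    · refine ⟨fun _ => ⊥, rfl, ?_, ?_, Subsingleton.elim _ _⟩
      · intro n g v _
        rw [Subsingleton.elim (ρ g v) 0]
        exact Submodule.zero_mem _
      · intro n g v _
        rw [Subsingleton.elim (ρ g v - v) 0]
        exact Submodule.zero_mem _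
    · obtain ⟨v0, hv0, hfix⟩ := exists_invariant hG ρ
      let L : Submodule F V := Submodule.span F {v0}
      have hL : ∀ g, ∀ v ∈ L, ρ g v = v := by
        intro g v hv
        obtain ⟨c, rfl⟩ := Submodule.mem_span_singleton.1 hv
        rw [map_smul, hfix]
      have hLc : ∀ g, L ≤ L.comap (ρ g) := by
        intro g v hv
        rw [Submodule.mem_comap, hL g v hv]
        exact hv
      have hdim : finrank F (V ⧸ L) ≤ d := by
        have h1 := Submodule.finrank_quotient_add_finrank L
        have h2 : finrank F L = 1 := finrank_span_singleton hv0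
        omega
      obtain ⟨W, hW0, hW1, hW2, hW3⟩ := ih (ρ.quotient L hLc) hdim
      refine ⟨fun n => Nat.rec ⊥ (fun k _ => (W k).comap L.mkQ) n, rfl, ?_, ?_, ?_⟩
      · intro n g v hv
        cases n with
        | zero =>
          have hv' : v = 0 := by simpa using hv
          rw [hv', map_zero]
          exact Submodule.zero_mem _
        | succ n =>
          show L.mkQ (ρ g v) ∈ W n
          exact hW1 n g _ hv
      · intro n g v hv
        cases n with
        | zero =>
          have hv' : v = 0 := by simpa using hv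
          rw [hv', map_zero, sub_zero]
          exact Submodule.zero_mem _
        | succ n =>
          have hv1 : L.mkQ v ∈ W n := hv
          cases n with
          | zero =>
            rw [hW0, Submodule.mem_bot] at hv1
            have hv2 : v ∈ L := (Submodule.Quotient.mk_eq_zero L).1 hv1
            rw [hL g v hv2, sub_self]
            exact Submodule.zero_mem _
          | succ n =>
            show L.mkQ (ρ g v - v) ∈ W n
            have h1 := hW2 (n + 1) g _ hv1
            rw [map_sub]
            exact h1
      · show (W d).comap L.mkQ = ⊤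
        rw [hW3, Submodule.comap_top]

/-- Commutators and chains. -/
lemma comm_chain {G : Type*} [Group G] {F : Type*} [Field F] {V : Type*} [AddCommGroup V]
    [Module F V] (ρ : Representation F G V) (W : ℕ → Submodule F V)
    (hW : ∀ n g v, v ∈ W n → ρ g v ∈ W n) {r s : ℕ} {g1 g2 h : G} (he : g1 * g2 = h * g2 * g1)
    (h1 : ∀ n v, v ∈ W n → ρ g1 v - v ∈ W (n - r)) (h2 : ∀ n v, v ∈ W n → ρ g2 v - v ∈ W (n - s)) :
    ∀ n v, v ∈ W n → ρ h v - v ∈ W (n - (r + s)) := by
  intro n w hw
  have hw' : ρ (g2 * g1)⁻¹ w ∈ W n := hW n _ _ hw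
  obtain ⟨v, hv⟩ : ∃ v, v = ρ (g2 * g1)⁻¹ w := ⟨_, rfl⟩
  rw [← hv] at hw'
  have hwv : w = ρ g2 (ρ g1 v) := by
    rw [hv]
    have : ρ (g2 * g1) (ρ (g2 * g1)⁻¹ w) = w := by
      rw [← Module.End.mul_apply, ← map_mul, mul_inv_cancel, map_one]
      rfl
    rw [map_mul] at this
    exact this.symm
  have hh : ρ h w = ρ g1 (ρ g2 v) := by
    rw [hwv, ← Module.End.mul_apply, ← Module.End.mul_apply, ← Module.End.mul_apply, ← map_mul,
      ← map_mul, ← map_mul, he]
  have e : ρ h w - w = (ρ g1 (ρ g2 v - v) - (ρ g2 v - v)) - (ρ g2 (ρ g1 v - v) - (ρ g1 v - v)) := by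
    rw [hh, hwv, map_sub, map_sub]
    abel
  rw [e]
  refine Submodule.sub_mem _ ?_ ?_
  · have := h1 _ _ (h2 n v hw')
    rwa [Nat.sub_sub, add_comm s r] at this
  · have := h2 _ _ (h1 n v hw')
    rwa [Nat.sub_sub] at this

end Pool.Agent.H673R4.LR
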