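import Pool.Agent.H673R4.LR.C
import Pool.Agent.H673R4.LR.D1

/-!
# Representations of dimension smaller than `m`
-/

set_option autoImplicit false
set_option linter.style.haveILetI false

namespace Pool.Agent.H673R4.LR

open Matrix Module Pool.Agent.Helper460_CSP

section spread

variable {m : ℕ} {S : Subgroup (SZ m)}

lemma spread_left (hS : S.Normal) {i j k : Fin m} (hij : i ≠ j) (hkj : k ≠ j) {c : ℤ}
    (h : tv i j hij c ∈ S) : tv k j hkj c ∈ S := by
  by_cases hki : k = i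
  · subst hki; exact h
  · have e := tv_st (i := k) (k := i) (j := j) hkj hki hij 1 c
    rw [one_mul] at e
    have e2 : tv k j hkj c = (tv k i hki 1 * tv i j hij c * (tv k i hki 1)⁻¹) * (tv i j hij c)⁻¹ := by
      rw [e]
      group
    rw [e2]
    exact S.mul_mem (hS.conj_mem _ h _) (S.inv_mem h)

lemma spread_right (hS : S.Normal) {i j l : Fin m} (hij : i ≠ j) (hil : i ≠ l) {c : ℤ}
    (h : tv i j hij c ∈ S) : tv i l hil c ∈ S := by
  by_cases hjl : j = l
  · subst hjl; exact h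
  · have e := tv_st (i := i) (k := j) (j := l) hil hij hjl c 1
    rw [mul_one] at e
    have e2 : tv i l hil c = tv i j hij c * (tv j l hjl 1 * (tv i j hij c)⁻¹ * (tv j l hjl 1)⁻¹) := by
      have : tv i l hil c = tv i j hij c * tv j l hjl 1 * (tv i j hij c)⁻¹ * (tv j l hjl 1)⁻¹ := by
        rw [e]
        group
      rw [this]
      group
    rw [e2]
    exact S.mul_mem h (hS.conj_mem _ (S.inv_mem h) _)

lemma spread_all (hm : 3 ≤ m) (hS : S.Normal) {i0 j0 : Fin m} (h0 : i0 ≠ j0) {c : ℤ}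
    (h : tv i0 j0 h0 c ∈ S) (i j : Fin m) (hij : i ≠ j) : tv i j hij c ∈ S := by
  by_cases h1 : j = i0
  · subst h1
    -- go through a third index
    by_cases h2 : i = j0
    · subst h2
      obtain ⟨k, hk1, hk2⟩ := exists_third hm i j
      have a1 := spread_left hS h0 (k := k) hk1 h
      have a2 := spread_right hS hk1 (l := j) hk2 a1
      exact spread_left hS hk2 hij a2
    · have a1 := spread_left hS h0 (k := i) h2 h
      exact spread_right hS h2 hij a1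
  · have a1 := spread_right hS h0 (l := j) (Ne.symm h1) h
    exact spread_left hS (Ne.symm h1) hij a1

end spread

section ut

variable {m : ℕ}

lemma mt_pow (A : SZ m) (n : ℕ) : mt (A ^ n) = (mt A) ^ n := by
  induction n with
  | zero => rw [pow_zero, pow_zero, mt_one]
  | succ n ih => rw [pow_succ, pow_succ, mt_mul, ih]

/-- upper unitriangular modulo `M1` and trivial modulo `M2` -/
def UT (M1 M2 : ℤ) (A : SZ m) : Prop :=
  (∀ i j, j < i → M1 ∣ mt A i j) ∧ (∀ i, M1 ∣ mt A i i - 1) ∧ Cgr M2 A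

lemma UT_one (M1 M2 : ℤ) : UT M1 M2 (1 : SZ m) := by
  refine ⟨fun i j h => ?_, fun i => ?_, fun i j => ?_⟩
  · rw [mt_one, Matrix.one_apply_ne h.ne']
    exact dvd_zero _
  · rw [mt_one, Matrix.one_apply_eq, sub_self]
    exact dvd_zero _
  · rw [mt_one, sub_self]
    exact dvd_zero _

lemma UT_mul {M1 M2 : ℤ} {A B : SZ m} (hA : UT M1 M2 A) (hB : UT M1 M2 B) : UT M1 M2 (A * B) := by
  refine ⟨fun i j h => ?_, fun i => ?_, hA.2.2.mul hB.2.2⟩
  · rw [mt_mul, Matrix.mul_apply]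
    refine Finset.dvd_sum fun k _ => ?_
    rcases lt_or_ge k i with hk | hk
    · exact (hA.1 i k hk).mul_right _
    · exact (hB.1 k j (lt_of_lt_of_le h hk)).mul_left _
  · rw [mt_mul, Matrix.mul_apply, ← Finset.add_sum_erase _ _ (Finset.mem_univ i)]
    have e : mt A i i * mt B i i + ∑ k ∈ Finset.univ.erase i, mt A i k * mt B k i - 1 =
        ((mt A i i - 1) * mt B i i + (mt B i i - 1)) +
          ∑ k ∈ Finset.univ.erase i, mt A i k * mt B k i := by ring
    rw [e]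
    refine dvd_add (dvd_add ((hA.2.1 i).mul_right _) (hB.2.1 i)) (Finset.dvd_sum fun k hk => ?_)
    have hki : k ≠ i := Finset.ne_of_mem_erase hk
    rcases lt_or_gt_of_ne hki with hk' | hk'
    · exact (hA.1 i k hk').mul_right _
    · exact (hB.1 k i hk').mul_left _

lemma UT_pow {M1 M2 : ℤ} {A : SZ m} (hA : UT M1 M2 A) (n : ℕ) : UT M1 M2 (A ^ n) := by
  induction n with
  | zero => rw [pow_zero]; exact UT_one _ _
  | succ n ih => rw [pow_succ]; exact UT_mul ih hA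

lemma UT_tv {M1 M2 : ℤ} {i j : Fin m} (h : i < j) {c : ℤ} (hc : M2 ∣ c) :
    UT M1 M2 (tv i j h.ne c) := by
  have e : ∀ a b, mt (tv i j h.ne c) a b = (1 : Matrix (Fin m) (Fin m) ℤ) a b +
      if i = a ∧ j = b then c else 0 := by
    intro a b
    show transvection i j c a b = _
    rw [transvection, Matrix.add_apply, Matrix.single_apply]
  refine ⟨fun a b hab => ?_, fun a => ?_, fun a b => ?_⟩
  · rw [e, Matrix.one_apply_ne hab.ne', if_neg, add_zero]
    · exact dvd_zero _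
    · rintro ⟨rfl, rfl⟩
      exact absurd hab (not_lt.2 h.le)
  · rw [e, Matrix.one_apply_eq, if_neg, add_zero, sub_self]
    · exact dvd_zero _
    · rintro ⟨rfl, h2⟩
      exact h.ne' h2
  · rw [e, add_sub_cancel_left]
    split_ifs
    · exact hc
    · exact dvd_zero _

open Polynomial in
lemma UT_ppow {p : ℕ} [Fact p.Prime] {a : ℕ} (ha : 1 ≤ a) {M2 : ℤ} {A : SZ m}
    (h : UT ((p : ℤ) ^ a) M2 A) : ∃ r : ℕ, Cgr ((p : ℤ) ^ a) (A ^ (p ^ r)) := by
  have hp : (p : ℤ) ∣ (p : ℤ) ^ a := dvd_pow_self _ (by omega)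
  let B : Matrix (Fin m) (Fin m) (ZMod p) := (Int.castRingHom (ZMod p)).mapMatrix (mt A)
  have hB : ∀ i j, B i j = ((mt A i j : ℤ) : ZMod p) := fun i j => rfl
  have hup : B.IsUpperTriangular := by
    intro i j hij
    rw [hB, ZMod.intCast_zmod_eq_zero_iff_dvd]
    exact hp.trans (h.1 i j hij)
  have hdiag : ∀ i, B i i = 1 := by
    intro i
    rw [hB, ← sub_eq_zero, ← Int.cast_one, ← Int.cast_sub, ZMod.intCast_zmod_eq_zero_iff_dvd]
    exact hp.trans (h.2.1 i)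
  have hch : B.charpoly = ((X : (ZMod p)[X]) - 1) ^ m := by
    rw [Matrix.charpoly_of_isUpperTriangular _ hup]
    simp [hdiag]
  have hnil : (B - 1) ^ m = 0 := by
    have := Matrix.aeval_self_charpoly B
    rw [hch] at this
    simpa using this
  have hpow : B ^ (p ^ m) = 1 := by
    have e1 : ((X : (ZMod p)[X]) - 1) ^ (p ^ m) = X ^ (p ^ m) - 1 := by
      rw [sub_pow_char_pow, one_pow]
    have e2 := congrArg (aeval B) e1
    rw [map_pow, map_sub, map_sub, map_pow, map_one, aeval_X] at e2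
    have hle : m ≤ p ^ m := (Nat.lt_pow_self (Fact.out : p.Prime).one_lt).le
    rw [pow_eq_zero_of_le hle hnil] at e2
    exact (sub_eq_zero.1 e2.symm)
  -- `A ^ (p ^ m) = 1 + p C`
  have hdvd : ∀ i j, (p : ℤ) ∣ mt (A ^ (p ^ m)) i j - (1 : Matrix (Fin m) (Fin m) ℤ) i j := by
    intro i j
    have e : (Int.castRingHom (ZMod p)).mapMatrix (mt (A ^ (p ^ m))) =
        (Int.castRingHom (ZMod p)).mapMatrix 1 := by
      rw [mt_pow, map_pow, map_one]
      exact hpow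
    have e2 := congrFun (congrFun e i) j
    rw [RingHom.mapMatrix_apply, RingHom.mapMatrix_apply, Matrix.map_apply, Matrix.map_apply] at e2
    rw [← ZMod.intCast_zmod_eq_zero_iff_dvd, Int.cast_sub]
    exact sub_eq_zero.2 e2
  choose Cm hCm using hdvd
  let C' : Matrix (Fin m) (Fin m) ℤ := Matrix.of Cm
  have hA1 : mt (A ^ (p ^ m)) = 1 + (p : ℤ) • C' := by
    ext i j
    rw [Matrix.add_apply, Matrix.smul_apply, smul_eq_mul]
    have := hCm i j
    show _ = _ + (p : ℤ) * Cm i j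
    linarith
  have hd : ((p : ℤ[X]) ^ (a + 1)) ∣ (1 + (p : ℤ[X]) * X) ^ p ^ a - 1 ^ p ^ a :=
    dvd_sub_pow_of_dvd_sub (by rw [add_sub_cancel_left]; exact dvd_mul_right _ _) a
  obtain ⟨q, hq⟩ := hd
  refine ⟨m + a, fun i j => ?_⟩
  have e3 : mt (A ^ (p ^ (m + a))) - 1 = ((p : ℤ) ^ (a + 1)) • aeval C' q := by
    rw [pow_add, pow_mul, mt_pow, hA1]
    have e4 : (1 + ((p : ℕ) : Matrix (Fin m) (Fin m) ℤ) * C') ^ p ^ a - 1 =
        ((p : ℕ) : Matrix (Fin m) (Fin m) ℤ) ^ (a + 1) * aeval C' q := by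
      have := congrArg (aeval C') hq
      simpa using this
    have e5 : (p : ℤ) • C' = ((p : ℕ) : Matrix (Fin m) (Fin m) ℤ) * C' := by
      rw [← nsmul_eq_mul, natCast_zsmul]
    rw [e5, e4, ← Nat.cast_pow, ← nsmul_eq_mul, ← natCast_zsmul, Nat.cast_pow]
  have e6 := congrFun (congrFun e3 i) j
  rw [Matrix.sub_apply, Matrix.smul_apply, smul_eq_mul, pow_succ] at e6
  rw [e6, mul_assoc]
  exact dvd_mul_right _ _

end ut

section main

variable {m N p : ℕ}

/-- the image of the group `UT` -/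
def PU {F : Type} [Field F] (φ : SZ m →* GL (Fin N) F) (M1 M2 : ℤ)
    (hfin : ∀ A : SZ m, UT M1 M2 A → ∃ n : ℕ, 0 < n ∧ φ A ^ n = 1) : Subgroup (GL (Fin N) F) where
  carrier := {g | ∃ A : SZ m, UT M1 M2 A ∧ φ A = g}
  one_mem' := ⟨1, UT_one _ _, map_one φ⟩
  mul_mem' := by
    rintro _ _ ⟨A, hA, rfl⟩ ⟨B, hB, rfl⟩
    exact ⟨A * B, UT_mul hA hB, map_mul φ A B⟩
  inv_mem' := by
    rintro _ ⟨A, hA, rfl⟩
    obtain ⟨n, hn, hn1⟩ := hfin A hA
    refine ⟨A ^ (n - 1), UT_pow hA _, ?_⟩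
    rw [map_pow, eq_inv_iff_mul_eq_one, ← pow_succ, Nat.sub_add_cancel hn, hn1]

/-- **Representations of dimension smaller than `m`** over finite fields: the elementary matrices have
order dividing `N!`. -/
theorem small_dim (hm : 3 ≤ m) (hN : N < m) [Fact p.Prime] {F : Type} [Field F] [Finite F]
    [CharP F p] (φ : SZ m →* GL (Fin N) F) :
    El (Fin m) ((N.factorial : ℕ) : ℤ) ≤ φ.ker := by
  classical
  obtain ⟨b, k', hk', hfac⟩ := Nat.exists_eq_pow_mul_and_not_dvd (Nat.factorial_ne_zero N) p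
    (Fact.out : p.Prime).ne_one
  have hkc : Nat.Coprime p k' := (Nat.Prime.coprime_iff_not_dvd Fact.out).2 hk'
  obtain ⟨a, ha⟩ : ∃ a, a = b + N + 1 := ⟨_, rfl⟩
  have hdvd : ((N.factorial * p ^ N : ℕ) : ℤ) ∣ (p : ℤ) ^ a * (k' : ℤ) := by
    rw [hfac, ha]
    push_cast
    exact ⟨p, by ring⟩
  have hker : ∀ A : SZ m, Cgr ((p : ℤ) ^ a) A → Cgr (k' : ℤ) A → φ A = 1 := by
    intro A h1 h2
    rw [← MonoidHom.mem_ker]
    apply El_le_ker (p := p) hm φ
    apply bls' hm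
    · have := Nat.factorial_pos N
      have := (Fact.out : p.Prime).pos
      positivity
    · intro i j
      refine hdvd.trans (IsCoprime.mul_dvd ?_ (h1 i j) (h2 i j))
      rw [← Nat.cast_pow, Nat.isCoprime_iff_coprime]
      exact hkc.pow_left _
  have hpp : ∀ A : SZ m, UT ((p : ℤ) ^ a) (k' : ℤ) A → ∃ r : ℕ, φ A ^ (p ^ r) = 1 := by
    intro A hA
    obtain ⟨r, hr⟩ := UT_ppow (by omega) hA
    exact ⟨r, by rw [← map_pow]; exact hker _ hr (UT_pow hA _).2.2⟩
  let P := PU φ ((p : ℤ) ^ a) (k' : ℤ) (fun A hA => by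
    obtain ⟨r, hr⟩ := hpp A hA
    exact ⟨p ^ r, pow_pos (Fact.out : p.Prime).pos _, hr⟩)
  have hP : IsPGroup p P := by
    rintro ⟨_, A, hA, rfl⟩
    obtain ⟨r, hr⟩ := hpp A hA
    exact ⟨r, Subtype.ext hr⟩
  let ρ : Representation F P (Fin N → F) :=
    ((Matrix.toLinAlgEquiv' (R := F) (n := Fin N)).toMonoidHom.comp (Units.coeHom _)).comp P.subtype
  obtain ⟨W, hW0, hW1, hW2, hW3⟩ := exists_chain hP N ρ (by rw [Module.finrank_fin_fun])
  -- the iterated commutators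
  have hit : ∀ r (hr : r + 1 < m), ∃ h : P,
      (h : GL (Fin N) F) = φ (tv ⟨0, by omega⟩ ⟨r + 1, hr⟩ (by simp [Fin.ext_iff]) ((k' : ℤ) ^ (r + 1))) ∧
      ∀ n v, v ∈ W n → ρ h v - v ∈ W (n - (r + 1)) := by
    intro r
    induction r with
    | zero =>
      intro hr
      refine ⟨⟨_, tv ⟨0, by omega⟩ ⟨0 + 1, hr⟩ (by simp [Fin.ext_iff]) ((k' : ℤ) ^ (0 + 1)),
        UT_tv (by simp [Fin.lt_def]) (by simp), rfl⟩, rfl, fun n v hv => hW2 n _ v hv⟩
    | succ r ih =>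
      intro hr
      obtain ⟨g1, hg1, hD1⟩ := ih (by omega)
      let g2 : P := ⟨φ (tv ⟨r + 1, by omega⟩ ⟨r + 1 + 1, hr⟩ (by simp [Fin.ext_iff]) (k' : ℤ)),
        tv ⟨r + 1, by omega⟩ ⟨r + 1 + 1, hr⟩ (by simp [Fin.ext_iff]) (k' : ℤ),
        UT_tv (by simp [Fin.lt_def]) dvd_rfl, rfl⟩
      let h : P := ⟨φ (tv ⟨0, by omega⟩ ⟨r + 1 + 1, hr⟩ (by simp [Fin.ext_iff])
          ((k' : ℤ) ^ (r + 1 + 1))),
        tv ⟨0, by omega⟩ ⟨r + 1 + 1, hr⟩ (by simp [Fin.ext_iff]) ((k' : ℤ) ^ (r + 1 + 1)),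
        UT_tv (by simp [Fin.lt_def]) (dvd_pow_self _ (by omega)), rfl⟩
      refine ⟨h, rfl, ?_⟩
      have he : g1 * g2 = h * g2 * g1 := by
        apply Subtype.ext
        show (g1 : GL (Fin N) F) * φ _ = φ _ * φ _ * (g1 : GL (Fin N) F)
        rw [hg1, ← map_mul, ← map_mul, ← map_mul]
        congr 1
        have := tv_st (i := (⟨0, by omega⟩ : Fin m)) (k := ⟨r + 1, by omega⟩) (j := ⟨r + 1 + 1, hr⟩)
          (by simp [Fin.ext_iff]) (by simp [Fin.ext_iff]) (by simp [Fin.ext_iff])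
          ((k' : ℤ) ^ (r + 1)) (k' : ℤ)
        rw [← pow_succ] at this
        exact this
      exact comm_chain ρ W hW1 he hD1 (fun n v hv => hW2 n _ v hv)
  obtain ⟨h, hh, hD⟩ := hit (m - 2) (by omega)
  have h1 : h = 1 := by
    apply Subtype.ext
    apply Units.ext
    apply (Matrix.toLinAlgEquiv' (R := F) (n := Fin N)).injective
    rw [show ((1 : P) : GL (Fin N) F) = 1 from rfl, Units.val_one, map_one]
    apply LinearMap.ext
    intro v
    have h2 := hD N v (by rw [hW3]; trivial)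
    rw [show N - (m - 2 + 1) = 0 by omega, hW0, Submodule.mem_bot, sub_eq_zero] at h2
    exact h2
  rw [h1] at hh
  have hmem1 : tv (⟨0, by omega⟩ : Fin m) ⟨m - 2 + 1, by omega⟩ (by simp [Fin.ext_iff])
      ((k' : ℤ) ^ (m - 2 + 1)) ∈ φ.ker := MonoidHom.mem_ker.2 hh.symm
  have hmem2 : tv (⟨0, by omega⟩ : Fin m) ⟨m - 2 + 1, by omega⟩ (by simp [Fin.ext_iff])
      ((p : ℤ) ^ a * (k' : ℤ)) ∈ φ.ker :=
    tv_mem (MonoidHom.mem_ker.2 (tv_pow_one (p := p) hm φ _ _ _)) hdvd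
  have hmem3 : tv (⟨0, by omega⟩ : Fin m) ⟨m - 2 + 1, by omega⟩ (by simp [Fin.ext_iff])
      (k' : ℤ) ∈ φ.ker := by
    have hc : IsCoprime ((k' : ℤ) ^ (m - 2)) ((p : ℤ) ^ a) := by
      rw [← Nat.cast_pow, ← Nat.cast_pow, Nat.isCoprime_iff_coprime]
      exact (hkc.symm.pow_left _).pow_right _
    obtain ⟨u, v, huv⟩ := hc
    have e : (k' : ℤ) = u * (k' : ℤ) ^ (m - 2 + 1) + v * ((p : ℤ) ^ a * (k' : ℤ)) := by
      rw [pow_succ]
      linear_combination (-(k' : ℤ)) * huv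
    rw [e, tv_add]
    exact φ.ker.mul_mem (tv_mem hmem1 (dvd_mul_left _ _)) (tv_mem hmem2 (dvd_mul_left _ _))
  refine El_le fun i j hij => ?_
  refine tv_mem (spread_all hm (MonoidHom.normal_ker φ) _ hmem3 i j hij) ?_
  rw [hfac]
  push_cast
  exact dvd_mul_left _ _

end main

end Pool.Agent.H673R4.LR
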