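import Mathlib

/-!
# Specialization of a transcendental element of a finitely generated domain
-/

set_option autoImplicit false

namespace Pool.Agent.H673R4.LR

open Polynomial

/-- Places of a field which contain given algebraic elements, over the Gauss valuation of a prime. -/
theorem exists_place (L : Type) [Field L] [Algebra ℤ[X] L]
    (hinj : Function.Injective (algebraMap ℤ[X] L)) (s : Finset L)
    (hs : ∀ x ∈ s, IsAlgebraic ℤ[X] x) :
    ∃ (p : ℕ) (V : ValuationSubring L), p.Prime ∧ (∀ x ∈ s, x ∈ V) ∧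
      (∀ q : ℤ[X], algebraMap ℤ[X] L q ∈ V) ∧
      (∀ q : ℤ[X], ∀ h : algebraMap ℤ[X] L q ∈ V,
        (⟨algebraMap ℤ[X] L q, h⟩ : V) ∈ IsLocalRing.maximalIdeal V ↔ C (p : ℤ) ∣ q) := by
  classical
  -- a common denominator
  obtain ⟨c, hc0, hc⟩ : ∃ c : ℤ[X], c ≠ 0 ∧ ∀ x ∈ s, IsIntegral ℤ[X] (c • x) := by
    choose! r hr hint using fun x (hx : x ∈ s) => (hs x hx).exists_integral_multiple
    refine ⟨∏ x ∈ s, r x, Finset.prod_ne_zero_iff.mpr fun x hx => hr x hx, fun x hx => ?_⟩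
    rw [← Finset.prod_erase_mul _ _ hx, mul_smul]
    exact (hint x hx).smul _
  -- a prime which does not divide `c`
  obtain ⟨p, hp, hpc⟩ : ∃ p : ℕ, p.Prime ∧ ¬ C (p : ℤ) ∣ c := by
    obtain ⟨n, hn⟩ : ∃ n, c.coeff n ≠ 0 := by
      by_contra hcon
      push Not at hcon
      exact hc0 (Polynomial.ext fun n => by rw [hcon, coeff_zero])
    obtain ⟨p, hp1, hp2⟩ := Nat.exists_infinite_primes ((c.coeff n).natAbs + 1)
    refine ⟨p, hp2, fun hd => ?_⟩
    rw [Polynomial.C_dvd_iff_dvd_coeff] at hd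
    have := Int.le_of_dvd (Int.natAbs_pos.2 hn |> fun h => by exact_mod_cast h)
      (Int.dvd_natAbs.2 (hd n) : (p : ℤ) ∣ ((c.coeff n).natAbs : ℤ))
    omega
  let P : Ideal ℤ[X] := Ideal.span {C (p : ℤ)}
  have hCp : Prime (C (p : ℤ)) := Polynomial.prime_C_iff.2 (Nat.prime_iff_prime_int.1 hp)
  have hP : P.IsPrime := (Ideal.span_singleton_prime hCp.ne_zero).2 hCp
  let R0 := Localization.AtPrime P
  have hunit : ∀ y : P.primeCompl, IsUnit (algebraMap ℤ[X] L y) := by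
    intro y
    rw [isUnit_iff_ne_zero]
    intro h
    have : (y : ℤ[X]) = 0 := hinj (by rw [h, map_zero])
    exact y.2 (by rw [this]; exact P.zero_mem)
  let f0 : R0 →+* L := IsLocalization.lift (M := P.primeCompl) (S := R0) (g := algebraMap ℤ[X] L) hunit
  have hf0 : ∀ q : ℤ[X], f0 (algebraMap ℤ[X] R0 q) = algebraMap ℤ[X] L q :=
    fun q => IsLocalization.lift_eq _ _
  obtain ⟨V, hV, hloc⟩ := IsLocalRing.exists_factor_valuationRing f0
  have hmem : ∀ q : ℤ[X], algebraMap ℤ[X] L q ∈ V := fun q => by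
    rw [← hf0]
    exact hV _
  have hmax : ∀ q : ℤ[X], ∀ h : algebraMap ℤ[X] L q ∈ V,
      (⟨algebraMap ℤ[X] L q, h⟩ : V) ∈ IsLocalRing.maximalIdeal V ↔ C (p : ℤ) ∣ q := by
    intro q h
    have e : (⟨algebraMap ℤ[X] L q, h⟩ : V) = f0.codRestrict V.toSubring hV (algebraMap ℤ[X] R0 q) :=
      Subtype.ext (hf0 q).symm
    rw [IsLocalRing.mem_maximalIdeal, mem_nonunits_iff, e, ← Ideal.mem_span_singleton]
    have h1 : IsUnit (f0.codRestrict V.toSubring hV (algebraMap ℤ[X] R0 q)) ↔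
        IsUnit (algebraMap ℤ[X] R0 q) :=
      ⟨fun h => hloc.map_nonunit _ h, fun h => h.map _⟩
    have h2 : IsUnit (algebraMap ℤ[X] R0 q) ↔ q ∉ P := by
      rw [IsLocalization.AtPrime.isUnit_to_map_iff R0 P q]
      rfl
    rw [← not_iff_not, not_not]
    exact h1.trans h2
  refine ⟨p, V, hp, fun x hx => ?_, hmem, hmax⟩
  have hcu : IsUnit (⟨algebraMap ℤ[X] L c, hmem c⟩ : V) := by
    by_contra hcon
    exact hpc ((hmax c (hmem c)).1 ((IsLocalRing.mem_maximalIdeal _).2 hcon))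
  have hcx : algebraMap ℤ[X] L c * x ∈ V := by
    have h1 : IsIntegral ℤ[X] (algebraMap ℤ[X] L c * x) := by
      rw [← Algebra.smul_def]
      exact hc x hx
    have h2 : IsIntegral V (algebraMap ℤ[X] L c * x) := by
      obtain ⟨g, hg, hg2⟩ := h1
      refine ⟨g.map ((algebraMap ℤ[X] L).codRestrict V.toSubring hmem), hg.map _, ?_⟩
      rw [Polynomial.eval₂_map]
      exact hg2
    obtain ⟨y, hy⟩ := IsIntegrallyClosed.isIntegral_iff.1 h2
    rw [← hy]
    exact y.2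
  obtain ⟨u, hu⟩ := hcu
  have hne : algebraMap ℤ[X] L c ≠ 0 := fun h => hc0 (hinj (by rw [h, map_zero]))
  have h3 : x = ((u⁻¹ : Vˣ) : V) * (algebraMap ℤ[X] L c * x) := by
    have h4 : ((u⁻¹ : Vˣ) : V) * (⟨algebraMap ℤ[X] L c, hmem c⟩ : V) = 1 := by
      rw [← hu, Units.inv_mul]
    have h5 : (((u⁻¹ : Vˣ) : V) : L) * algebraMap ℤ[X] L c = 1 := by
      have := congrArg (Subtype.val) h4
      exact this
    rw [← mul_assoc, h5, one_mul]
  rw [h3]
  exact V.mul_mem _ _ ((u⁻¹ : Vˣ) : V).2 hcx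

end Pool.Agent.H673R4.LR
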