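import Pool.Agent.H673R4.LR.C
import Pool.Agent.H673R4.LR.E

/-!
# Traces are algebraic over the prime field
-/

set_option autoImplicit false
set_option linter.style.haveILetI false

namespace Pool.Agent.H673R4.LR

open Polynomial Matrix
open scoped TensorProduct

/-- A transcendental element of a finitely generated domain stays transcendental over the prime field
after a suitable homomorphism into a field of positive characteristic. -/
theorem specialize (R : Type) [CommRing R] [IsDomain R] [Algebra.FiniteType ℤ R] (t : R)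
    (ht : Function.Injective (aeval t : ℤ[X] →ₐ[ℤ] R)) :
    ∃ (p : ℕ) (κ : Type) (_ : Field κ) (θ : R →+* κ), p.Prime ∧ CharP κ p ∧
      ¬ IsIntegral ℤ (θ t) := by
  classical
  letI : Algebra ℤ[X] R := (aeval t : ℤ[X] →ₐ[ℤ] R).toRingHom.toAlgebra
  haveI : IsScalarTower ℤ ℤ[X] R := IsScalarTower.of_algebraMap_eq fun x => by
    rw [eq_intCast, eq_intCast, map_intCast]
  haveI : Algebra.FiniteType ℤ[X] R := Algebra.FiniteType.of_restrictScalars_finiteType ℤ ℤ[X] R
  let k := FractionRing ℤ[X]
  let T := k ⊗[ℤ[X]] R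
  haveI hTn : Nontrivial T := by
    have h1 : Function.Injective (Algebra.TensorProduct.includeLeft : k →ₐ[k] k ⊗[ℤ[X]] R) :=
      Algebra.TensorProduct.includeLeft_injective ht
    exact h1.nontrivial
  haveI : Algebra.FiniteType k T := inferInstance
  obtain ⟨M, hM⟩ := Ideal.exists_maximal T
  letI i1 : Field (T ⧸ M) := Ideal.Quotient.field M
  have hfin : Module.Finite k (T ⧸ M) :=
    @finite_of_finite_type_of_isJacobsonRing k (T ⧸ M) _ i1 (Ideal.Quotient.algebra k (I := M)) _
      (inferInstance)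
  let θ0 : R →+* (T ⧸ M) := (Ideal.Quotient.mk M).comp
    (Algebra.TensorProduct.includeRight : R →ₐ[ℤ[X]] k ⊗[ℤ[X]] R).toRingHom
  have hθ0 : ∀ q : ℤ[X], θ0 (algebraMap ℤ[X] R q) = algebraMap ℤ[X] (T ⧸ M) q := by
    intro q
    show (Ideal.Quotient.mk M) ((Algebra.TensorProduct.includeRight : R →ₐ[ℤ[X]] k ⊗[ℤ[X]] R)
      (algebraMap ℤ[X] R q)) = _
    rw [AlgHom.commutes]
    rfl
  have hinj : Function.Injective (algebraMap ℤ[X] (T ⧸ M)) := by
    have e : algebraMap ℤ[X] (T ⧸ M) = (algebraMap k (T ⧸ M)).comp (algebraMap ℤ[X] k) := by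
      exact IsScalarTower.algebraMap_eq ℤ[X] k (T ⧸ M)
    rw [e]
    exact (algebraMap k (T ⧸ M)).injective.comp (IsFractionRing.injective ℤ[X] k)
  obtain ⟨S0, hS0⟩ := (inferInstance : Algebra.FiniteType ℤ R).out
  have halg : ∀ x : T ⧸ M, IsAlgebraic ℤ[X] x := by
    intro x
    have h0 : IsIntegral k x := @IsIntegral.of_finite k (T ⧸ M) _ _ _ hfin x
    have h1 : IsAlgebraic k x := h0.isAlgebraic
    exact (IsFractionRing.isAlgebraic_iff ℤ[X] k (T ⧸ M)).2 h1
  obtain ⟨p, V, hp, hVs, hVq, hVm⟩ := exists_place (T ⧸ M) hinj (S0.image θ0) (fun x _ => halg x)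
  have hVR : ∀ r : R, θ0 r ∈ V := by
    intro r
    have hr : r ∈ Algebra.adjoin ℤ (S0 : Set R) := by rw [hS0]; trivial
    induction hr using Algebra.adjoin_induction with
    | mem x hx => exact hVs _ (Finset.mem_image_of_mem _ hx)
    | algebraMap z =>
      have : θ0 (algebraMap ℤ R z) = algebraMap ℤ[X] (T ⧸ M) (z : ℤ[X]) := by
        rw [← hθ0]; simp
      rw [this]
      exact hVq _
    | add x y _ _ hx hy => rw [map_add]; exact V.add_mem _ _ hx hy
    | mul x y _ _ hx hy => rw [map_mul]; exact V.mul_mem _ _ hx hy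
  let θ1 : R →+* V := θ0.codRestrict V.toSubring hVR
  let θ : R →+* IsLocalRing.ResidueField V := (IsLocalRing.residue V).comp θ1
  have hθ1 : ∀ q : ℤ[X], θ1 (aeval t q) = ⟨algebraMap ℤ[X] (T ⧸ M) q, hVq q⟩ := by
    intro q
    apply Subtype.ext
    exact hθ0 q
  have hker : ∀ q : ℤ[X], θ (aeval t q) = 0 ↔ C (p : ℤ) ∣ q := by
    intro q
    show IsLocalRing.residue V (θ1 (aeval t q)) = 0 ↔ _
    rw [IsLocalRing.residue_eq_zero_iff, hθ1]
    exact hVm q (hVq q)
  refine ⟨p, IsLocalRing.ResidueField V, inferInstance, θ, hp, ?_, ?_⟩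
  · have h0 : (p : IsLocalRing.ResidueField V) = 0 := by
      have h1 := (hker (C (p : ℤ))).2 dvd_rfl
      rw [aeval_C] at h1
      simpa using h1
    obtain ⟨q, hq'⟩ := CharP.exists (IsLocalRing.ResidueField V)
    have hqd : q ∣ p := (CharP.cast_eq_zero_iff _ q p).1 h0
    rcases (Nat.dvd_prime hp).1 hqd with h | h
    · subst h
      exact absurd rfl (CharP.char_ne_one (IsLocalRing.ResidueField V) 1)
    · rwa [h] at hq'
  · rintro ⟨q, hq, hq2⟩
    have h1 : θ (aeval t q) = 0 := by
      rw [← hq2, aeval_def, Polynomial.hom_eval₂]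
      congr 1
      exact RingHom.ext_int _ _
    have h2 := (hker q).1 h1
    rw [Polynomial.C_dvd_iff_dvd_coeff] at h2
    have h3 := h2 q.natDegree
    rw [hq.coeff_natDegree] at h3
    have := Int.le_of_dvd one_pos h3
    have := hp.one_lt
    omega

/-- The trace of a matrix of finite order is integral. -/
theorem isIntegral_trace {K : Type} [Field K] {N : ℕ} (A : Matrix (Fin N) (Fin N) K) {n : ℕ}
    (hn : 0 < n) (hA : A ^ n = 1) : IsIntegral ℤ A.trace := by
  classical
  let E := AlgebraicClosure K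
  let B : Matrix (Fin N) (Fin N) E := A.map (algebraMap K E)
  have hB : B ^ n = 1 := by
    show ((algebraMap K E).mapMatrix A) ^ n = 1
    rw [← map_pow, hA, map_one]
  have htr : algebraMap K E A.trace = B.trace := by
    rw [Matrix.trace, Matrix.trace, map_sum]
    rfl
  have hint : IsIntegral ℤ B.trace := by
    rw [Matrix.trace_eq_sum_roots_charpoly]
    refine IsIntegral.multiset_sum ?_
    intro μ hμ
    have hroot : B.charpoly.eval μ = 0 := (Polynomial.mem_roots'.1 hμ).2
    rw [Matrix.eval_charpoly] at hroot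
    have hcomm : Commute (Matrix.scalar (Fin N) μ) B := Matrix.scalar_commute μ (fun r' => Commute.all _ _) B
    obtain ⟨D, hD⟩ := hcomm.sub_dvd_pow_sub_pow n
    have hdet : ((Matrix.scalar (Fin N) μ) ^ n - B ^ n).det = 0 := by
      rw [hD, Matrix.det_mul, hroot, zero_mul]
    rw [hB, ← map_pow, ← map_one (Matrix.scalar (Fin N)), ← map_sub, Matrix.scalar_apply,
      Matrix.det_diagonal, Finset.prod_const, Finset.card_univ] at hdet
    have h1 : μ ^ n - 1 = 0 := by
      by_contra h
      exact pow_ne_zero _ h hdet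
    exact IsIntegral.of_pow hn (by rw [sub_eq_zero.1 h1]; exact isIntegral_one)
  rw [← htr] at hint
  exact (isIntegral_algebraMap_iff (algebraMap K E).injective).1 hint

section

variable {Λ : Type} [Group Λ] {N : ℕ}

/-- In positive characteristic the traces are sums of roots of unity. -/
theorem trace_char_p {m p : ℕ} (hm : 3 ≤ m) [Group.FG Λ] (hq : QuotientsOf m Λ) [Fact p.Prime]
    {K : Type} [Field K] [CharP K p] (φ : Λ →* GL (Fin N) K) (g : Λ) :
    IsIntegral ℤ (φ g).val.trace := by
  obtain ⟨hfin, _⟩ := char_p hm hq φ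
  obtain ⟨n, hn, hn2⟩ := isOfFinOrder_iff_pow_eq_one.1
    (isOfFinOrder_of_finite (φ.rangeRestrict g))
  refine isIntegral_trace _ hn ?_
  have h1 : (φ g) ^ n = 1 := congrArg Subtype.val hn2
  have h2 := congrArg Units.val h1
  rw [Units.val_pow_eq_pow_val, Units.val_one] at h2
  exact h2

/-- **Rigidity of the traces** in characteristic zero. -/
theorem trace_char_zero {m : ℕ} (hm : 3 ≤ m) [Group.FG Λ] (hq : QuotientsOf m Λ)
    {K : Type} [Field K] (φ : Λ →* GL (Fin N) K) (g : Λ) :
    IsAlgebraic ℤ (φ g).val.trace := by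
  by_contra hcon
  obtain ⟨R, ψ, hR, hψ⟩ := exists_ring φ
  have htr : (((ψ g).val.trace : R) : K) = (φ g).val.trace := by
    rw [Matrix.trace, Matrix.trace, AddSubmonoidClass.coe_finsetSum]
    exact Finset.sum_congr rfl fun i _ => hψ g i i
  have hinj : Function.Injective (aeval ((ψ g).val.trace) : ℤ[X] →ₐ[ℤ] R) := by
    have h1 : Transcendental ℤ ((φ g).val.trace) := hcon
    rw [transcendental_iff_injective] at h1
    intro a b hab
    apply h1
    rw [← htr]
    have h2 := congrArg (fun x : R => (x : K)) hab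
    have h3 : ∀ q : ℤ[X], aeval (((ψ g).val.trace : R) : K) q =
        ((aeval ((ψ g).val.trace) q : R) : K) := fun q =>
      (Polynomial.aeval_algHom_apply R.val _ q)
    rw [h3, h3]
    exact h2
  obtain ⟨p, κ, _, θ, hp, hc, hθ⟩ := specialize R _ hinj
  haveI : Fact p.Prime := ⟨hp⟩
  apply hθ
  have h4 := trace_char_p hm hq ((Matrix.GeneralLinearGroup.map θ).comp ψ) g
  have h5 : (((Matrix.GeneralLinearGroup.map θ).comp ψ) g).val.trace = θ ((ψ g).val.trace) := by
    rw [Matrix.trace, Matrix.trace, map_sum]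
    rfl
  rwa [h5] at h4

end

end Pool.Agent.H673R4.LR
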