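import Pool.Agent.H673R4.LR.F

/-!
# Finitely many characters
-/

set_option autoImplicit false
set_option linter.style.haveILetI false

namespace Pool.Agent.H673R4.LR

open Polynomial Matrix

section

variable {Λ : Type} [Group Λ] {N : ℕ}

/-- The traces are algebraic over any subfield. -/
theorem trace_algebraic {m : ℕ} (hm : 3 ≤ m) [Group.FG Λ] (hq : QuotientsOf m Λ)
    {k K : Type} [Field k] [Field K] [Algebra k K] (φ : Λ →* GL (Fin N) K) (g : Λ) :
    IsAlgebraic k (φ g).val.trace := by
  obtain ⟨p, hp⟩ := CharP.exists k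
  rcases CharP.char_is_prime_or_zero k p with h | h
  · haveI : Fact p.Prime := ⟨h⟩
    haveI : CharP K p := charP_of_injective_algebraMap (algebraMap k K).injective p
    have h1 := trace_char_p hm hq φ g
    exact (h1.tower_top (A := k)).isAlgebraic
  · subst h
    haveI : CharZero k := CharP.charP_to_charZero k
    have h1 := trace_char_zero hm hq φ g
    exact h1.extendScalars (S := k) (RingHom.injective_int (algebraMap ℤ k))

/-- the coordinate functions on the set of the representations -/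
lemma coord_mem {K : Type} [Field K] (T : Set Λ) (hT : Subgroup.closure T = ⊤)
    (A : Subalgebra K ((Λ →* GL (Fin N) K) → K))
    (h1 : ∀ t ∈ T, ∀ i j, (fun ρ : Λ →* GL (Fin N) K => (ρ t).val i j) ∈ A)
    (h2 : ∀ t ∈ T, ∀ i j, (fun ρ : Λ →* GL (Fin N) K => (ρ t⁻¹).val i j) ∈ A)
    (h : Λ) : ∀ i j, (fun ρ : Λ →* GL (Fin N) K => (ρ h).val i j) ∈ A := by
  have hmem : h ∈ Subgroup.closure T := by rw [hT]; trivial
  have hmul : ∀ x y : Λ, (∀ i j, (fun ρ : Λ →* GL (Fin N) K => (ρ x).val i j) ∈ A) →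
      (∀ i j, (fun ρ : Λ →* GL (Fin N) K => (ρ y).val i j) ∈ A) →
      ∀ i j, (fun ρ : Λ →* GL (Fin N) K => (ρ (x * y)).val i j) ∈ A := by
    intro x y hx hy i j
    have e : (fun ρ : Λ →* GL (Fin N) K => (ρ (x * y)).val i j) =
        ∑ k, (fun ρ : Λ →* GL (Fin N) K => (ρ x).val i k) *
          (fun ρ : Λ →* GL (Fin N) K => (ρ y).val k j) := by
      funext ρ
      rw [map_mul, Units.val_mul, Matrix.mul_apply, Finset.sum_apply]
      rfl
    rw [e]
    exact A.sum_mem (fun k _ => A.mul_mem (hx i k) (hy k j))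
  induction hmem using Subgroup.closure_induction_left with
  | one =>
    intro i j
    have e : (fun ρ : Λ →* GL (Fin N) K => (ρ 1).val i j) =
        algebraMap K ((Λ →* GL (Fin N) K) → K) ((1 : Matrix (Fin N) (Fin N) K) i j) := by
      funext ρ
      rw [map_one, Units.val_one]
      rfl
    rw [e]
    exact A.algebraMap_mem _
  | mul_left x hx y _ ih => exact hmul x y (h1 x hx) ih
  | inv_mul_cancel x hx y _ ih => exact hmul x⁻¹ y (h2 x hx) ih

/-- Modulo a prime ideal the traces of a representation over a `K`-algebra are constants. -/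
lemma const_of_prime {m : ℕ} (hm : 3 ≤ m) [Group.FG Λ] (hq : QuotientsOf m Λ) {K A : Type} [Field K]
    [IsAlgClosed K] [CommRing A] [Algebra K A] (ψ : Λ →* GL (Fin N) A) (P : Ideal A) [P.IsPrime] :
    ∃ c : Λ → K, ∀ g, (ψ g).val.trace - algebraMap K A (c g) ∈ P := by
  let θ : A →+* FractionRing (A ⧸ P) :=
    (algebraMap (A ⧸ P) (FractionRing (A ⧸ P))).comp (Ideal.Quotient.mk P)
  have h1 : ∀ g, ∃ c : K, algebraMap K (FractionRing (A ⧸ P)) c = θ ((ψ g).val.trace) := by
    intro g
    have h2 := trace_algebraic hm hq (k := K) ((Matrix.GeneralLinearGroup.map θ).comp ψ) g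
    have h5 : (((Matrix.GeneralLinearGroup.map θ).comp ψ) g).val.trace = θ ((ψ g).val.trace) := by
      rw [Matrix.trace, Matrix.trace, map_sum]
      rfl
    rw [h5] at h2
    have h3 : IsIntegral K (θ ((ψ g).val.trace)) := isAlgebraic_iff_isIntegral.1 h2
    have h4 := IsAlgClosed.degree_eq_one_of_irreducible K (minpoly.irreducible h3)
    exact minpoly.mem_range_of_degree_eq_one K _ h4
  choose c hc using h1
  refine ⟨c, fun g => ?_⟩
  rw [← Ideal.Quotient.eq_zero_iff_mem, map_sub, sub_eq_zero]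
  apply IsFractionRing.injective (A ⧸ P) (FractionRing (A ⧸ P))
  have h6 : algebraMap (A ⧸ P) (FractionRing (A ⧸ P)) (Ideal.Quotient.mk P (algebraMap K A (c g))) =
      algebraMap K (FractionRing (A ⧸ P)) (c g) := by
    rw [IsScalarTower.algebraMap_apply K (A ⧸ P) (FractionRing (A ⧸ P))]
    rfl
  rw [h6, hc]
  rfl

/-- Finitely many characters, over algebraically closed fields. -/
theorem finite_characters_closed {m : ℕ} (hm : 3 ≤ m) [Group.FG Λ] (hq : QuotientsOf m Λ)
    (K : Type) [Field K] [IsAlgClosed K] (N : ℕ) :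
    {χ : Λ → K | ∃ ρ : Λ →* GL (Fin N) K, ∀ g, χ g = (ρ g).val.trace}.Finite := by
  classical
  obtain ⟨T, hT⟩ := Group.fg_def.1 (inferInstance : Group.FG Λ)
  let s : Finset ((Λ →* GL (Fin N) K) → K) := T.biUnion fun t => Finset.univ.biUnion fun i : Fin N =>
    Finset.univ.biUnion fun j : Fin N =>
      {(fun ρ : Λ →* GL (Fin N) K => (ρ t).val i j), (fun ρ : Λ →* GL (Fin N) K => (ρ t⁻¹).val i j)}
  let A : Subalgebra K ((Λ →* GL (Fin N) K) → K) :=
    Algebra.adjoin K (s : Set ((Λ →* GL (Fin N) K) → K))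
  have hA : Algebra.FiniteType K A := by
    rw [← Subalgebra.fg_iff_finiteType]
    exact ⟨s, rfl⟩
  have hNoeth : IsNoetherianRing A := Algebra.FiniteType.isNoetherianRing K A
  have hent : ∀ h : Λ, ∀ i j, (fun ρ : Λ →* GL (Fin N) K => (ρ h).val i j) ∈ A := by
    apply coord_mem (T : Set Λ) hT A
    · intro t ht i j
      apply Algebra.subset_adjoin
      simp only [s, Finset.coe_biUnion, Set.mem_iUnion]
      exact ⟨t, ht, i, by simp, j, by simp, by simp⟩
    · intro t ht i j
      apply Algebra.subset_adjoin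
      simp only [s, Finset.coe_biUnion, Set.mem_iUnion]
      exact ⟨t, ht, i, by simp, j, by simp, by simp⟩
  let ψ0 : Λ →* Matrix (Fin N) (Fin N) A :=
    { toFun := fun h => Matrix.of fun i j => ⟨fun ρ => (ρ h).val i j, hent h i j⟩
      map_one' := by
        ext i j ρ
        simp only [Matrix.of_apply, map_one, Units.val_one, Matrix.one_apply]
        split_ifs <;> rfl
      map_mul' := by
        intro x y
        ext i j ρ
        simp only [Matrix.of_apply, map_mul, Units.val_mul, Matrix.mul_apply]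
        rw [AddSubmonoidClass.coe_finsetSum, Finset.sum_apply]
        rfl }
  let ψ : Λ →* GL (Fin N) A := ψ0.toHomUnits
  have hev : ∀ (ρ : Λ →* GL (Fin N) K) (g : Λ),
      (((ψ g).val.trace : A) : (Λ →* GL (Fin N) K) → K) ρ = (ρ g).val.trace := by
    intro ρ g
    rw [Matrix.trace, Matrix.trace, AddSubmonoidClass.coe_finsetSum, Finset.sum_apply]
    rfl
  -- the constants
  have hc : ∀ P : minimalPrimes A, ∃ c : Λ → K, ∀ g,
      (ψ g).val.trace - algebraMap K A (c g) ∈ P.1 := by
    rintro ⟨P, hP⟩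
    haveI hPp : P.IsPrime := hP.1.1
    exact const_of_prime hm hq ψ P
  choose c hc using hc
  have hfin : Finite (minimalPrimes A) :=
    (minimalPrimes.finite_of_isNoetherianRing A).to_subtype
  refine (Set.finite_range c).subset ?_
  rintro χ ⟨ρ, hρ⟩
  let ev : A →+* K := (Pi.evalRingHom _ ρ).comp A.val.toRingHom
  have hker : (RingHom.ker ev).IsPrime := RingHom.ker_isPrime ev
  obtain ⟨P, hP, hPle⟩ := Ideal.exists_minimalPrimes_le (I := (⊥ : Ideal A)) (J := RingHom.ker ev) bot_le
  refine ⟨⟨P, hP⟩, ?_⟩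
  funext g
  have h1 := hPle (hc ⟨P, hP⟩ g)
  rw [RingHom.mem_ker, map_sub, sub_eq_zero] at h1
  have h2 : ev ((ψ g).val.trace) = (ρ g).val.trace := hev ρ g
  have h3 : ev (algebraMap K A (c ⟨P, hP⟩ g)) = c ⟨P, hP⟩ g := rfl
  rw [hρ, ← h2, h1, h3]

/-- **Finitely many characters.** -/
theorem finite_characters {m : ℕ} (hm : 3 ≤ m) [Group.FG Λ] (hq : QuotientsOf m Λ)
    (K : Type) [Field K] (N : ℕ) :
    {χ : Λ → K | ∃ ρ : Λ →* GL (Fin N) K, ∀ g, χ g = (ρ g).val.trace}.Finite := by
  have h1 := finite_characters_closed hm hq (AlgebraicClosure K) N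
  have hinj : Function.Injective (fun χ : Λ → K => fun g => algebraMap K (AlgebraicClosure K) (χ g)) := by
    intro a b hab
    funext g
    exact (algebraMap K (AlgebraicClosure K)).injective (congrFun hab g)
  refine (h1.preimage hinj.injOn).subset ?_
  rintro χ ⟨ρ, hρ⟩
  refine ⟨(Matrix.GeneralLinearGroup.map (algebraMap K (AlgebraicClosure K))).comp ρ, fun g => ?_⟩
  show algebraMap K (AlgebraicClosure K) (χ g) = _
  rw [hρ, Matrix.trace, Matrix.trace, map_sum]
  rfl

end

end Pool.Agent.H673R4.LR
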