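import Pool.Agent.H673R4.LR.G
import Pool.Agent.H673R4.LR.D2

/-!
# Representations of dimension smaller than `m` over arbitrary fields
-/

set_option autoImplicit false

namespace Pool.Agent.H673R4.LR

open Matrix Module

variable {Λ : Type} [Group Λ] {K : Type} [Field K] {N : ℕ}

/-- **Representations of dimension smaller than `m` have finite images.** -/
theorem small {m : ℕ} (hm : 3 ≤ m) (hN : N < m) [Group.FG Λ] (hq : QuotientsOf m Λ)
    (φ : Λ →* GL (Fin N) K) :
    Finite φ.range ∧ Nat.card φ.range ≤ N.factorial ^ (m ^ 2) := by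
  obtain ⟨R, ψ, hR, hψ⟩ := exists_ring φ
  refine card_le_of_fields φ R ψ hR hψ _ ?_
  intro F _ _ θ
  obtain ⟨p, hp⟩ := CharP.exists F
  have hpp : p.Prime := by
    rcases CharP.char_is_prime_or_zero F p with h | h
    · exact h
    · subst h
      have : CharZero F := CharP.charP_to_charZero F
      exact absurd (inferInstance : Finite F) (not_finite_iff_infinite.2 inferInstance)
  have : Fact p.Prime := ⟨hpp⟩
  have hfin : Finite (GL (Fin N) F) := inferInstance
  obtain ⟨χ, hχ⟩ : ∃ χ, χ = (Matrix.GeneralLinearGroup.map θ).comp ψ := ⟨_, rfl⟩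
  rw [← hχ]
  obtain ⟨f, hf⟩ := hq χ.range ⟨χ.rangeRestrict, χ.rangeRestrict_surjective⟩
  have h1 := card_range hm (χ.range.subtype.comp f) (M := N.factorial) (Nat.factorial_pos _)
    (small_dim (p := p) hm hN _)
  have h2 : (χ.range.subtype.comp f).range = χ.range := by
    rw [MonoidHom.range_comp, MonoidHom.range_eq_top.2 hf, ← MonoidHom.range_eq_map,
      Subgroup.range_subtype]
  rw [h2] at h1
  exact h1.2

end Pool.Agent.H673R4.LR
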